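import Pool.Agent.K1H76.RG.Stm
import Pool.Agent.Y41.XT.L1
import Pool.Agent.V11306.Cao4

/-!
# Project RG (helper76), A7: the half sum of an odd character modulo a prime (helper36)
-/

set_option autoImplicit false

open Filter Topology Finset DirichletCharacter

namespace Pool.Agent.K1H36.RG

open Pool.Agent.K1H76.RG

/-- the value at `1` of an odd primitive character -/
theorem L_odd {f : ℕ} [NeZero f] (χ : DirichletCharacter ℂ f) (hprim : χ.IsPrimitive)
    (hne : χ ≠ 1) (hodd : χ.Odd) :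
    LFunction χ 1 * gaussSum χ⁻¹ (ZMod.stdAddChar (N := f)) =
      -(Complex.I * Real.pi / f) * ∑ u : ZMod f, χ⁻¹ u * (u.val : ℂ) := by
  rw [Pool.Agent.Y41.XT.limit hprim hne]
  have hinv : (χ⁻¹ : DirichletCharacter ℂ f) ≠ 1 := by simpa using hne
  have h0 : (χ⁻¹ : DirichletCharacter ℂ f) 0 = 0 := Pool.Agent.Y41.XT.chi_zero hinv
  have hodd' : (χ⁻¹ : DirichletCharacter ℂ f) (-1) = -1 := by
    rw [MulChar.inv_apply_eq_inv', hodd]
    norm_num
  have hneg : ∀ u : ZMod f, (χ⁻¹ : DirichletCharacter ℂ f) (-u) =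
      - (χ⁻¹ : DirichletCharacter ℂ f) u := by
    intro u
    rw [show -u = (-1) * u by ring, map_mul, hodd']
    ring
  have h2 : ∑ u : ZMod f, χ⁻¹ u * Complex.log (1 - ZMod.stdAddChar u) =
      - ∑ u : ZMod f, χ⁻¹ u * (starRingEnd ℂ) (Complex.log (1 - ZMod.stdAddChar u)) := by
    rw [← Equiv.sum_comp (Equiv.neg (ZMod f)), ← sum_neg_distrib]
    refine sum_congr rfl fun u _ => ?_
    simp only [Equiv.neg_apply]
    rw [hneg]
    by_cases hu : u = 0
    · subst hu; rw [h0]; simp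
    · rw [Pool.Agent.V11306.Cao.conj_log' hu]; ring
  have hsum0 : ∑ u : ZMod f, (χ⁻¹ : DirichletCharacter ℂ f) u = 0 :=
    MulChar.sum_eq_zero_of_ne_one hinv
  have h4 : 2 * ∑ u : ZMod f, χ⁻¹ u * Complex.log (1 - ZMod.stdAddChar u) =
      2 * ((Complex.I * Real.pi / f) * ∑ u : ZMod f, χ⁻¹ u * (u.val : ℂ)) := by
    rw [two_mul]
    nth_rewrite 2 [h2]
    rw [← sub_eq_add_neg, ← sum_sub_distrib]
    have e : ∀ u : ZMod f, χ⁻¹ u * Complex.log (1 - ZMod.stdAddChar u) -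
        χ⁻¹ u * (starRingEnd ℂ) (Complex.log (1 - ZMod.stdAddChar u)) =
        (2 * (Complex.I * Real.pi / f)) * (χ⁻¹ u * (u.val : ℂ)) -
          (Complex.I * Real.pi) * χ⁻¹ u := by
      intro u
      by_cases hu : u = 0
      · subst hu; rw [h0]; simp
      · rw [← mul_sub, Complex.sub_conj, Pool.Agent.V11306.Cao.log_im' hu]
        push_cast
        ring
    rw [sum_congr rfl (fun u _ => e u), sum_sub_distrib, ← mul_sum, ← mul_sum, hsum0]
    ring
  have h5 := mul_left_cancel₀ two_ne_zero h4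
  rw [h5]
  ring

/-- norms of Gauss sums modulo primes -/
lemma gauss_norm {p : ℕ} [hp : Fact p.Prime] (χ : DirichletCharacter ℂ p) (hχ1 : χ⁻¹ ≠ 1) :
    ‖gaussSum χ⁻¹ (ZMod.stdAddChar (N := p))‖ = Real.sqrt p := by
  have h3 := gaussSum_mul_gaussSum_eq_card hχ1 (ZMod.isPrimitive_stdAddChar p)
  rw [← star_gaussSum_eq, ZMod.card] at h3
  have h4 : ((‖gaussSum χ⁻¹ (ZMod.stdAddChar (N := p))‖ ^ 2 : ℝ) : ℂ) = p := by
    push_cast
    rw [← Complex.mul_conj']
    exact h3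
  have h5 : ‖gaussSum χ⁻¹ (ZMod.stdAddChar (N := p))‖ ^ 2 = p := by exact_mod_cast h4
  rw [← h5, Real.sqrt_sq (norm_nonneg _)]

lemma sum_zmod_range (p : ℕ) [NeZero p] (Φ : ZMod p → ℂ) :
    ∑ k, Φ k = ∑ n ∈ range p, Φ n := by
  apply sum_nbij' (fun k : ZMod p => k.val) (fun n : ℕ => (n : ZMod p))
  · intro k _; rw [mem_range]; exact ZMod.val_lt k
  · intro n _; exact mem_univ _
  · intro k _; simp
  · intro n hn; rw [mem_range] at hn; exact ZMod.val_cast_of_lt hn
  · intro k _; simp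

theorem split2 (h : ℕ) (f : ℕ → ℂ) : ∑ r ∈ range (2 * h + 1), f r =
    f 0 + ∑ s ∈ range h, (f (2 * (s + 1)) + f (2 * h + 1 - 2 * (s + 1))) := by
  have h1 : ∑ r ∈ range (2 * h + 1), f r = f 0 + ∑ s ∈ range h, (f (2 * (s + 1)) + f (2 * s + 1)) := by
    induction h with
    | zero => simp
    | succ h ih =>
      rw [show 2 * (h + 1) + 1 = 2 * h + 1 + 1 + 1 by ring, Finset.sum_range_succ,
        Finset.sum_range_succ, ih, Finset.sum_range_succ _ h]
      rw [show 2 * (h + 1) = 2 * h + 1 + 1 by ring]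
      ring
  rw [h1, Finset.sum_add_distrib, Finset.sum_add_distrib,
    ← Finset.sum_range_reflect (fun s => f (2 * s + 1)) h]
  congr 2
  apply Finset.sum_congr rfl
  intro s hs
  rw [mem_range] at hs
  congr 1
  omega

theorem split1 (h : ℕ) (f : ℕ → ℂ) : ∑ r ∈ range (2 * h + 1), f r =
    f 0 + ∑ s ∈ range h, (f (s + 1) + f (2 * h + 1 - (s + 1))) := by
  rw [show 2 * h + 1 = h + h + 1 by ring, Finset.sum_range_succ', Finset.sum_range_add,
    Finset.sum_add_distrib, ← Finset.sum_range_reflect (fun s => f (h + s + 1)) h, add_comm]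
  congr 2
  apply Finset.sum_congr rfl
  intro s hs
  rw [mem_range] at hs
  congr 1
  omega

/-- the half sum and the first moment -/
theorem half_moment (p h : ℕ) [NeZero p] (hph : p = 2 * h + 1) (χ : DirichletCharacter ℂ p)
    (hodd : χ.Odd) :
    χ 2 * ((p : ℂ) * ∑ s ∈ range h, χ ((s + 1 : ℕ) : ZMod p)) =
      (1 - 2 * χ 2) * ∑ u : ZMod p, χ u * (u.val : ℂ) := by
  have hsub : ∀ r : ℕ, r ≤ p → χ ((p - r : ℕ) : ZMod p) = - χ (r : ZMod p) := by
    intro r hr
    rw [Nat.cast_sub hr, ZMod.natCast_self, zero_sub, hodd.eval_neg]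
  have hT : ∑ u : ZMod p, χ u * (u.val : ℂ) =
      ∑ r ∈ range (2 * h + 1), χ (r : ZMod p) * (r : ℂ) := by
    rw [sum_zmod_range, ← hph]
    refine sum_congr rfl fun r hr => ?_
    rw [mem_range] at hr
    rw [ZMod.val_natCast_of_lt hr]
  set S : ℂ := ∑ s ∈ range h, χ ((s + 1 : ℕ) : ZMod p) with hS
  set A : ℂ := ∑ s ∈ range h, ((s + 1 : ℕ) : ℂ) * χ ((s + 1 : ℕ) : ZMod p) with hA
  set T : ℂ := ∑ u : ZMod p, χ u * (u.val : ℂ) with hTdef
  have h1 : T = 2 * A - p * S := by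
    rw [hT, split1, hS, hA, Finset.mul_sum, Finset.mul_sum, ← Finset.sum_sub_distrib]
    rw [Nat.cast_zero, Nat.cast_zero, mul_zero, zero_add]
    apply Finset.sum_congr rfl
    intro s hs
    rw [mem_range] at hs
    rw [← hph, hsub (s + 1) (by omega)]
    have e3 : ((p - (s + 1) : ℕ) : ℂ) = (p : ℂ) - ((s + 1 : ℕ) : ℂ) := by
      rw [Nat.cast_sub (by omega)]
    rw [e3]
    ring
  have h2 : T = χ 2 * (4 * A - p * S) := by
    rw [hT, split2, hS, hA, Finset.mul_sum, Finset.mul_sum, ← Finset.sum_sub_distrib,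
      Finset.mul_sum]
    rw [Nat.cast_zero, Nat.cast_zero, mul_zero, zero_add]
    apply Finset.sum_congr rfl
    intro s hs
    rw [mem_range] at hs
    have e4 : χ ((2 * (s + 1) : ℕ) : ZMod p) = χ 2 * χ ((s + 1 : ℕ) : ZMod p) := by
      rw [← map_mul]
      congr 1
      push_cast
      ring
    rw [← hph, hsub (2 * (s + 1)) (by omega), e4]
    have e3 : ((p - 2 * (s + 1) : ℕ) : ℂ) = (p : ℂ) - 2 * ((s + 1 : ℕ) : ℂ) := by
      rw [Nat.cast_sub (by omega)]
      push_cast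
      ring
    rw [e3]
    push_cast
    ring
  linear_combination (-1 : ℂ) * h2 + 2 * χ 2 * h1

lemma prim_of_ne_one {p : ℕ} [NeZero p] (hp : p.Prime) {χ : DirichletCharacter ℂ p}
    (hχ : χ ≠ 1) : χ.IsPrimitive := by
  rw [isPrimitive_def]
  rcases (Nat.dvd_prime hp).mp (conductor_dvd_level χ) with h | h
  · exact absurd ((eq_one_iff_conductor_eq_one).mpr h) hχ
  · exact h

theorem t_HALF : S_HALF := by
  intro p _ hp hp2 χ hodd
  have : Fact p.Prime := ⟨hp⟩
  have hχ : χ ≠ 1 := by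
    intro h
    rw [h] at hodd
    unfold DirichletCharacter.Odd at hodd
    rw [MulChar.one_apply (isUnit_one.neg)] at hodd
    norm_num at hodd
  have hinv : (χ⁻¹ : DirichletCharacter ℂ p) ≠ 1 := by simpa using hχ
  have hL := L_odd χ (prim_of_ne_one hp hχ) hχ hodd
  have hp0 : (0 : ℝ) < p := by exact_mod_cast hp.pos
  have hstar : ∀ a : ZMod p, (χ⁻¹ : DirichletCharacter ℂ p) a = (starRingEnd ℂ) (χ a) := fun a =>
    (MulChar.star_apply' χ a).symm
  set T : ℂ := ∑ u : ZMod p, χ u * (u.val : ℂ) with hT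
  have hconj : ‖∑ u : ZMod p, χ⁻¹ u * (u.val : ℂ)‖ = ‖T‖ := by
    rw [hT, ← RCLike.norm_conj (∑ u : ZMod p, χ u * (u.val : ℂ)), map_sum]
    congr 1
    refine sum_congr rfl fun u _ => ?_
    rw [map_mul, ← hstar, Complex.conj_natCast]
  have h1 : Real.sqrt p * ‖LFunction χ 1‖ = Real.pi / p * ‖T‖ := by
    have h2 := congrArg norm hL
    rw [norm_mul, gauss_norm χ hinv, norm_mul, hconj, norm_neg] at h2
    have h3 : ‖(Complex.I * Real.pi / p : ℂ)‖ = Real.pi / p := by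
      rw [norm_div, norm_mul, Complex.norm_I, one_mul, Complex.norm_real, Complex.norm_natCast,
        Real.norm_of_nonneg Real.pi_pos.le]
    rw [h3] at h2
    rw [← h2]
    ring
  obtain ⟨h, hh⟩ : ∃ h, p = 2 * h + 1 := by
    rcases hp.eq_two_or_odd' with h | ⟨h, hh⟩
    · exact absurd h hp2
    · exact ⟨h, hh⟩
  have hS : hs χ = ∑ s ∈ range h, χ ((s + 1 : ℕ) : ZMod p) := by
    unfold hs
    have : (p - 1) / 2 = h := by omega
    rw [this]
    have e : Icc 1 h = (range h).image (fun s => s + 1) := by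
      ext a
      simp only [mem_Icc, mem_image, mem_range]
      constructor
      · rintro ⟨h1, h2⟩
        exact ⟨a - 1, by omega, by omega⟩
      · rintro ⟨s, h1, rfl⟩
        omega
    rw [e, sum_image (fun a _ b _ hab => by simpa using hab)]
  have h4 : χ 2 * ((p : ℂ) * hs χ) = (1 - 2 * χ 2) * T := by
    rw [hS, hT]
    exact half_moment p h hh χ hodd
  have hχ2 : ‖χ 2‖ = 1 := by
    have hu : IsUnit (2 : ZMod p) := by
      rw [isUnit_iff_ne_zero]
      intro h0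
      have h1 : ((2 : ℕ) : ZMod p) = 0 := by exact_mod_cast h0
      rw [ZMod.natCast_eq_zero_iff] at h1
      have := Nat.le_of_dvd (by norm_num) h1
      have := hp.two_le
      omega
    obtain ⟨u, hu⟩ := hu
    rw [← hu]
    exact χ.unit_norm_eq_one u
  have h5 : ‖1 - 2 * χ 2‖ = ‖2 - χ 2‖ := by
    have h6 : χ 2 * (starRingEnd ℂ) (χ 2) = 1 := by
      rw [Complex.mul_conj, Complex.normSq_eq_norm_sq, hχ2]
      norm_num
    have h7 : 1 - 2 * χ 2 = - (χ 2 * (starRingEnd ℂ) (2 - χ 2)) := by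
      rw [map_sub]
      have : (starRingEnd ℂ) (2 : ℂ) = 2 := Complex.conj_ofNat 2
      rw [this]
      linear_combination (-1 : ℂ) * h6
    rw [h7, norm_neg, norm_mul, hχ2, one_mul, RCLike.norm_conj]
  have h6 := congrArg norm h4
  rw [norm_mul, hχ2, one_mul, norm_mul, norm_mul, h5, Complex.norm_natCast] at h6
  have h7 : Real.sqrt p * ‖2 - χ 2‖ * ‖LFunction χ 1‖ = ‖2 - χ 2‖ * (Real.pi / p * ‖T‖) := by
    rw [← h1]; ring
  rw [h7]
  have h8 : ‖2 - χ 2‖ * (Real.pi / p * ‖T‖) = Real.pi / p * (‖2 - χ 2‖ * ‖T‖) := by ring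
  rw [h8, ← h6]
  field_simp

end Pool.Agent.K1H36.RG
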