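import Pool.Agent.K1H76.RG.Stm
import Pool.Agent.H378R2.M1a

/-!
# Project RG (helper76), A11: the size of `L(1, χ)` and of `L(σ, χ) - L(1, χ)` (helper36)
-/

set_option autoImplicit false

open Filter Topology

namespace Pool.Agent.K1H36.RG

open Pool.Agent.K1H76.RG

theorem t_LONE : S_LONE := by
  obtain ⟨C, hC, hA, -, hB⟩ := Pool.Agent.H378R2.M1.L_lip
  refine ⟨16 * C, by positivity, ?_⟩
  intro p _ hp χ hχ
  have hp2 : p ≠ 2 := by
    rintro rfl
    apply hχ
    ext a
    have ha : a = 1 := by decide +revert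
    rw [ha, Units.val_one, map_one, map_one]
  have hp3 : 3 ≤ p := by
    have := hp.two_le
    omega
  have hlog : 1 ≤ Real.log p := by
    have h1 : Real.log 3 ≤ Real.log p := Real.log_le_log (by norm_num) (by exact_mod_cast hp3)
    have h2 : (1 : ℝ) ≤ Real.log 3 := by
      rw [Real.le_log_iff_exp_le (by norm_num)]
      exact (Real.exp_one_lt_d9.le.trans (by norm_num))
    linarith
  set L : ℝ := Real.log p with hL
  have hl : (4 : ℝ) ≤ 4 * L := by linarith
  have hll : L ≤ 4 * L := by linarith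
  have h0 : (0 : ℝ) ≤ 1 / (4 * L) := by positivity
  have h0' : (0 : ℝ) ≤ 1 / (2 * (4 * L)) := by positivity
  have hlog2 : ∀ x : ℝ, 0 < x → x ≤ 3 → Real.log x ≤ 4 * L := by
    intro x hx hx3
    have := Real.log_le_sub_one_of_pos hx
    linarith
  have hval : ∀ σ : ℝ, 1 ≤ σ → σ ≤ 2 → ‖χ.LFunction (σ : ℂ)‖ ≤ C * (4 * L) := by
    intro σ h1 h2
    apply hA (4 * L) hl p χ hχ hll
    · rw [Complex.ofReal_re]; linarith
    · rw [Complex.ofReal_re]; exact h2
    · rw [Complex.ofReal_im, abs_zero, zero_add]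
      exact hlog2 2 (by norm_num) (by norm_num)
  have hone : ‖χ.LFunction 1‖ ≤ C * (4 * L) := by
    have := hval 1 le_rfl (by norm_num)
    simpa using this
  refine ⟨?_, ?_⟩
  · refine hone.trans ?_
    nlinarith
  · intro σ h1 h2
    rcases le_or_gt σ (3 / 2) with h3 | h3
    · have h4 := hB (4 * L) hl p χ hχ hll (σ : ℂ) 1
        (by rw [Complex.ofReal_re]; linarith) (by rw [Complex.ofReal_re]; linarith)
        (by rw [Complex.one_re]; linarith) (by rw [Complex.one_re]; norm_num) 0
        (by rw [Complex.ofReal_im]; simp) (by simp)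
        (by rw [zero_add]; exact hlog2 3 (by norm_num) le_rfl)
      refine h4.trans (le_of_eq ?_)
      have h5 : ‖(σ : ℂ) - 1‖ = σ - 1 := by
        have : (σ : ℂ) - 1 = ((σ - 1 : ℝ) : ℂ) := by push_cast; ring
        rw [this, Complex.norm_real, Real.norm_of_nonneg (by linarith)]
      rw [h5]
      ring
    · have h4 := hval σ h1 h2
      refine (norm_sub_le _ _).trans ?_
      have h5 : ‖χ.LFunction (σ : ℂ)‖ + ‖χ.LFunction 1‖ ≤ 8 * (C * L) := by linarith
      refine h5.trans ?_
      have h6 : 1 / 2 * (L * L) ≤ (σ - 1) * (L * L) := by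
        apply mul_le_mul_of_nonneg_right (by linarith) (by positivity)
      have h7 : L ≤ L * L := by nlinarith
      have hC0 : 0 < C := by linarith
      calc 8 * (C * L) ≤ 8 * (C * (L * L)) := by gcongr
        _ = 16 * C * (1 / 2 * (L * L)) := by ring
        _ ≤ 16 * C * ((σ - 1) * (L * L)) := by gcongr
        _ = 16 * C * (σ - 1) * L ^ 2 := by ring

end Pool.Agent.K1H36.RG
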